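import Pool.Agent.H97.HV.Targets2

/-!
# BRV. The number of the branches (MP_e37c09_lc)
-/

open Ordinal Cardinal Order Set
open scoped ZFSet

universe u

namespace Pool.Agent.H2.HV

open _root_.HD HD.PRK HD.HV

/-- A family which is injected into the subsets of a type with fewer than `D` elements, `D` a
strong limit, has fewer than `D` elements. -/
theorem sz_of_inj {D : Cardinal.{u}} (hD : D.IsStrongLimit) {T : Type (u + 1)}
    (hT : #T < Cardinal.lift.{u + 1} D) {Z : ZFSet.{u}} (f : {Y // Y ∈ Z} → Set T)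
    (hf : Function.Injective f) : ∃ ν < D, NF.Sz ν Z := by
  classical
  obtain ⟨c, hc⟩ := Cardinal.mem_range_lift_of_le hT.le
  have hcD : c < D := by
    rw [← hc, Cardinal.lift_lt] at hT
    exact hT
  have h2 : (2 : Cardinal.{u}) ^ c < D := hD.two_power_lt hcD
  refine ⟨2 ^ c, h2, ?_⟩
  have h3 : #{Y // Y ∈ Z} ≤ Cardinal.lift.{u + 1} ((2 : Cardinal.{u}) ^ c) := by
    have h4 : #{Y // Y ∈ Z} ≤ #(Set T) := Cardinal.mk_le_of_injective hf
    rw [Cardinal.mk_set, ← hc] at h4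
    rw [Cardinal.lift_power, Cardinal.lift_two]
    exact h4
  have h5 : #{Y // Y ∈ Z} ≤ #(Iio ((2 : Cardinal.{u}) ^ c).ord) := by
    rw [Cardinal.mk_Iio_ordinal, Cardinal.card_ord]
    exact h3
  obtain ⟨g⟩ := (Cardinal.le_def _ _).1 h5
  refine ⟨fun a => if h : ∃ Y : {Y // Y ∈ Z}, (g Y).1 = a then (Classical.choose h).1 else ∅,
    fun x hx => ⟨(g ⟨x, hx⟩).1, (g ⟨x, hx⟩).2, ?_⟩⟩
  have hex : ∃ Y : {Y // Y ∈ Z}, (g Y).1 = (g ⟨x, hx⟩).1 := ⟨⟨x, hx⟩, rfl⟩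
  simp only [hex, dif_pos]
  have h6 := g.injective (Subtype.ext (Classical.choose_spec hex))
  rw [h6]

/-- bounds for fewer than `D` ordinals below the regular cardinal `D` -/
theorem bdd_few {D : Cardinal.{u}} (hD : D.IsRegular) {S : Set Ordinal.{u}} (hS : Few D.ord S)
    (t : Ordinal.{u} → Ordinal.{u}) (ht : ∀ i, t i < D.ord) : ∃ σ < D.ord, ∀ i ∈ S, t i ≤ σ := by
  obtain ⟨τ, hτ, e, he⟩ := hS
  let c : τ.ToType → Ordinal.{u} := fun s => t (e (Ordinal.ToType.mk.symm s).1)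
  have hsup : ⨆ s, c s < D.ord := by
    refine Ordinal.iSup_lt_of_lt_cof ?_ fun s => ht _
    rw [Cardinal.mk_toType, hD.cof_ord]
    exact Cardinal.lt_ord.1 hτ
  refine ⟨⨆ s, c s, hsup, fun i hi => ?_⟩
  obtain ⟨a, ha, hea⟩ := he i hi
  have h4 : c (Ordinal.ToType.mk ⟨a, ha⟩) = t i := by
    simp only [c, OrderIso.symm_apply_apply, hea]
  rw [← h4]
  exact Ordinal.le_iSup c _

theorem PosX.mono' {μ ρ : Ordinal.{u}} {P Q : ZFSet.{u} → Prop} (h : PosX μ ρ P)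
    (hPQ : ∀ x, P x → Q x) : PosX μ ρ Q := fun C hC =>
  let ⟨x, hx, hP⟩ := h C hC
  ⟨x, hx, hPQ x hP⟩

/-- the values of `F` at `x` and the sections of `R` agree at all places less than `n` -/
def AgR (F R x : ZFSet.{u}) (n : Ordinal.{u}) : Prop :=
  ∀ k < n, ∀ a, ZFSet.pair x (ZFSet.pair k.toZFSet a) ∈ F ↔ ZFSet.pair k.toZFSet a ∈ R

theorem AgR.agv {F R x y : ZFSet.{u}} {n : Ordinal.{u}} (hx : AgR F R x n) (hy : AgR F R y n) :
    AgV F x y n := fun k hk a => (hx k hk a).trans (hy k hk a).symm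

theorem AgR.of_agv {F R x y : ZFSet.{u}} {n : Ordinal.{u}} (hx : AgR F R x n)
    (hxy : AgV F x y n) : AgR F R y n := fun k hk a => (hxy k hk a).symm.trans (hx k hk a)

theorem pf_BRV : T_BRV.{u} := by
  classical
  intro D K hD hDs hD0 hK hDK μ l F hF hG m hm hlim Z hZ
  have hDK0 : ℵ₀ ≤ K := (hD0.trans hDK).le
  have hKlim : IsSuccLimit K.ord := Cardinal.isSuccLimit_ord hDK0
  choose τ hτ g hg1 hg2 using hG
  -- the bound of the number of the classes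
  have hD0' : (0 : Ordinal.{u}) < D.ord := (Cardinal.isSuccLimit_ord hD0.le).bot_lt
  let t : Ordinal.{u} → Ordinal.{u} := fun i => if h : succ i < K.ord then τ (succ i) h else 0
  have ht : ∀ i, t i < D.ord := by
    intro i
    simp only [t]
    split_ifs with h
    · exact hτ _ h
    · exact hD0'
  obtain ⟨σ, hσ, hσ2⟩ := bdd_few hD hF t ht
  -- the type of the codes
  let S : Set Ordinal.{u} := SpV μ K.ord F
  have hT : #(S × Iio σ) < Cardinal.lift.{u + 1} D := by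
    rw [Cardinal.mk_prod, Cardinal.lift_id, Cardinal.lift_id, Cardinal.mk_Iio_ordinal]
    refine Cardinal.mul_lt_of_lt ?_ (few_iff.1 hF) ?_
    · rw [Cardinal.aleph0_le_lift]
      exact hD0.le
    · rw [Cardinal.lift_lt]
      exact Cardinal.lt_ord.1 hσ
  refine sz_of_inj hDs hT (fun R => {p | ∃ h : succ p.1.1 < K.ord, p.2.1 < τ (succ p.1.1) h ∧
    AgR F R.1 (g (succ p.1.1) h p.2.1) (succ p.1.1)}) ?_
  intro R1 R2 h12
  by_contra hne
  have hne' : R1.1 ≠ R2.1 := fun h => hne (Subtype.ext h)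
  obtain ⟨hs1, hp1⟩ := hZ R1.1 R1.2
  obtain ⟨hs2, hp2⟩ := hZ R2.1 R2.2
  have hex : ∃ i : Ordinal.{u}, i < m ∧
      ¬ ∀ a, (ZFSet.pair i.toZFSet a ∈ R1.1 ↔ ZFSet.pair i.toZFSet a ∈ R2.1) := by
    by_contra hcon
    push Not at hcon
    apply hne'
    ext z
    constructor
    · intro hz
      obtain ⟨k, hk, a, -, rfl⟩ := ZFSet.mem_prod.1 (hs1 hz)
      obtain ⟨k, hk', rfl⟩ := mem_toZFSet_iff.1 hk
      exact (hcon k hk' a).1 hz
    · intro hz
      obtain ⟨k, hk, a, -, rfl⟩ := ZFSet.mem_prod.1 (hs2 hz)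
      obtain ⟨k, hk', rfl⟩ := mem_toZFSet_iff.1 hk
      exact (hcon k hk' a).2 hz
  obtain ⟨i, ⟨him, hi⟩, hmin⟩ := WellFounded.has_min (wellFounded_lt (α := Ordinal.{u}))
    {i | i < m ∧ ¬ ∀ a, (ZFSet.pair i.toZFSet a ∈ R1.1 ↔ ZFSet.pair i.toZFSet a ∈ R2.1)} hex
  have hbelow : ∀ k < i, ∀ a, (ZFSet.pair k.toZFSet a ∈ R1.1 ↔
      ZFSet.pair k.toZFSet a ∈ R2.1) := by
    intro k hk
    by_contra hcon
    exact hmin k ⟨hk.trans him, hcon⟩ hk
  have hsm : succ i < m := hlim.succ_lt him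
  have hsK : succ i < K.ord := hsm.trans hm
  have hq1 : PosX μ K.ord fun x => AgR F R1.1 x (succ i) := hp1 (succ i) hsm
  have hq2 : PosX μ K.ord fun x => AgR F R2.1 x (succ i) := hp2 (succ i) hsm
  -- the club set of the level
  have hg2i := hg2 (succ i) hsK
  unfold PosX at hg2i
  push Not at hg2i
  obtain ⟨C, hC, hCg⟩ := hg2i
  obtain ⟨x1, hx1, hx1R⟩ := hq1 C hC
  obtain ⟨x2, hx2, hx2R⟩ := hq2 C hC
  have hsub : ∀ x, SmS μ K.ord C x → x ⊆ K.ord.toZFSet := by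
    intro x hx z hz
    obtain ⟨a, ha, -, -, rfl⟩ := hx.mem z hz
    exact toZFSet_mem_toZFSet_iff.2 ha
  have hspl : SplV μ K.ord F i := by
    refine ⟨x1, hsub x1 hx1, x2, hsub x2 hx2, PosX.mono' hq1 fun y hy => hy.agv hx1R,
      PosX.mono' hq2 fun y hy => hy.agv hx2R, fun k hk a => ?_, fun he => hi fun a => ?_⟩
    · rw [hx1R k (hk.trans (lt_succ i)) a, hx2R k (hk.trans (lt_succ i)) a]
      exact hbelow k hk a
    · rw [← hx1R i (lt_succ i) a, ← hx2R i (lt_succ i) a]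
      exact he a
  have hiS : i ∈ S := ⟨him.trans hm, hspl⟩
  obtain ⟨j, hj, hxj⟩ := hCg x1 hx1
  have hjσ : j < σ := by
    refine hj.trans_le ?_
    have h1 := hσ2 i hiS
    simp only [t, dif_pos hsK] at h1
    exact h1
  have hmem : ((⟨i, hiS⟩, ⟨j, hjσ⟩) : S × Iio σ) ∈ {p : S × Iio σ | ∃ h : succ p.1.1 < K.ord,
      p.2.1 < τ (succ p.1.1) h ∧ AgR F R1.1 (g (succ p.1.1) h p.2.1) (succ p.1.1)} :=
    ⟨hsK, hj, hx1R.of_agv hxj⟩
  have h12' : {p : S × Iio σ | ∃ h : succ p.1.1 < K.ord,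
      p.2.1 < τ (succ p.1.1) h ∧ AgR F R1.1 (g (succ p.1.1) h p.2.1) (succ p.1.1)} =
      {p : S × Iio σ | ∃ h : succ p.1.1 < K.ord,
      p.2.1 < τ (succ p.1.1) h ∧ AgR F R2.1 (g (succ p.1.1) h p.2.1) (succ p.1.1)} := h12
  rw [h12'] at hmem
  obtain ⟨h', -, hR2⟩ := hmem
  have hR1 : AgR F R1.1 (g (succ i) hsK j) (succ i) := hx1R.of_agv hxj
  have hR2' : AgR F R2.1 (g (succ i) hsK j) (succ i) := hR2
  exact hi fun a => (hR1 i (lt_succ i) a).symm.trans (hR2' i (lt_succ i) a)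

end Pool.Agent.H2.HV
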