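import Pool.Agent.H97.HV.Targets
import Pool.Agent.H45.NF.CL

/-!
# COD. Codes of the ordinal definable subsets of `V_ l × Wz γ m` (MP_e37c09_lc)
-/

open Ordinal Cardinal Order Set
open scoped ZFSet

universe u

namespace Pool.Agent.H2.HV

open _root_.HD HD.PRK HD.HV

/-- the products -/
noncomputable def Qm (γ l m : Ordinal.{u}) : ZFSet.{u} := ZFSet.prod (V_ l) (Wz γ m)

theorem od_prod {A B : ZFSet.{u}} (hA : OD A) (hB : OD B) : OD (ZFSet.prod A B) := by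
  refine OD.of_dz ?_
  refine DZ.od (R := fun b v => v 0 = ZFSet.prod b B) hA ?_
  exact DZ.od (R := fun c v => v 1 = ZFSet.prod (v 0) c) hB (loc_prod 2 1 0).dz

theorem od_Qm (h1 : T_WZF.{u}) (γ l m : Ordinal.{u}) : OD (Qm γ l m) :=
  od_prod (HD.NF.od_V l) (h1.2.1 γ m)

/-- the class of all `(c, m)` with `c` a least code of a subset of `Qm γ l m` -/
theorem do_Lst {en : Ordinal.{u} → ZFSet.{u}} (hen : EN en) (h1 : T_WZF.{u})
    (γ l : Ordinal.{u}) : DO fun w => w 0 ∈ Lst en (Qm γ l (w 1)) := by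
  refine ⟨fun v => ∃ y, ((v 0).IsOrdinal ∧ y = en (v 0).rank) ∧
    (∃ W, ((v 1).IsOrdinal ∧ W = Wz γ (v 1).rank) ∧ ∃ q, q = ZFSet.prod (V_ l) W ∧
      ∀ s, s ∈ y → s ∈ q) ∧ ∀ c, c ∈ v 0 → ∀ y', (c.IsOrdinal ∧ y' = en c.rank) → ¬ y' = y,
    ?_, fun w => ?_⟩
  · refine DZ.ex (R := fun y v => ((v 0).IsOrdinal ∧ y = en (v 0).rank) ∧
      (∃ W, ((v 1).IsOrdinal ∧ W = Wz γ (v 1).rank) ∧ ∃ q, q = ZFSet.prod (V_ l) W ∧
      ∀ s, s ∈ y → s ∈ q) ∧ ∀ c, c ∈ v 0 → ∀ y', (c.IsOrdinal ∧ y' = en c.rank) → ¬ y' = y)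
      (((hen.dz).ren fun n => if n = 0 then 1 else 0).and (DZ.and ?_ ?_))
    · refine DZ.ex (R := fun W v => ((v 2).IsOrdinal ∧ W = Wz γ (v 2).rank) ∧
        ∃ q, q = ZFSet.prod (V_ l) W ∧ ∀ s, s ∈ v 0 → s ∈ q)
        (((h1.1 γ).ren fun n => if n = 0 then 3 else 0).and ?_)
      refine DZ.ex (R := fun q v => q = ZFSet.prod (V_ l) (v 0) ∧ ∀ s, s ∈ v 1 → s ∈ q)
        (DZ.and ?_ ?_)
      · exact DZ.od (R := fun r v => v 0 = ZFSet.prod r (v 1)) (HD.NF.od_V l)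
          (loc_prod 1 0 2).dz
      · exact DZ.all (R := fun s v => s ∈ v 2 → s ∈ v 0) ((DZ.mem 0 3).imp (DZ.mem 0 1))
    · refine DZ.all (R := fun c v => c ∈ v 1 → ∀ y', (c.IsOrdinal ∧ y' = en c.rank) →
        ¬ y' = v 0) ((DZ.mem 0 2).imp ?_)
      refine DZ.all (R := fun y' v => ((v 0).IsOrdinal ∧ y' = en (v 0).rank) → ¬ y' = v 1)
        (DZ.imp ?_ (DZ.eq 0 2).not)
      exact (hen.dz).ren fun n => if n = 0 then 1 else 0
  · have e1 : (ov w 0).rank = w 0 := rank_toZFSet _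
    have e2 : (ov w 1).rank = w 1 := rank_toZFSet _
    constructor
    · intro h
      refine ⟨en (w 0), ⟨ZFSet.isOrdinal_toZFSet _, by rw [e1]⟩,
        ⟨Wz γ (w 1), ⟨ZFSet.isOrdinal_toZFSet _, by rw [e2]⟩, _, rfl, fun s hs => h.1 hs⟩, ?_⟩
      rintro c hc y' ⟨-, rfl⟩ he
      obtain ⟨a, ha, rfl⟩ := mem_toZFSet_iff.1 hc
      rw [rank_toZFSet] at he
      exact h.2 a ha he
    · rintro ⟨y, ⟨-, rfl⟩, ⟨W, ⟨-, rfl⟩, q, rfl, h2⟩, h3⟩
      rw [e1] at h2 h3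
      rw [e2] at h2
      refine ⟨fun s hs => h2 s hs, fun c hc => ?_⟩
      refine h3 c.toZFSet (toZFSet_mem_toZFSet_iff.2 hc) (en c)
        ⟨ZFSet.isOrdinal_toZFSet _, by rw [rank_toZFSet]⟩

/-- the coding -/
def JJ (en : Ordinal.{u} → ZFSet.{u}) (γ l : Ordinal.{u}) (m i : Ordinal.{u}) (Y : ZFSet.{u}) :
    Prop := ∃ c, nth (Lst en (Qm γ l m)) i c ∧ en c = Y

theorem dz_JJ {en : Ordinal.{u} → ZFSet.{u}} (hen : EN en) (h1 : T_WZF.{u})
    (γ l : Ordinal.{u}) : DZ fun v => (v 0).IsOrdinal ∧ (v 1).IsOrdinal ∧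
      JJ en γ l (v 0).rank (v 1).rank (v 2) := by
  have hn : DO fun w => nth (Lst en (Qm γ l (w 2))) (w 0) (w 1) :=
    HD.All.db (fun a w => a ∈ Lst en (Qm γ l (w 0))) (do_Lst hen h1 γ l)
  obtain ⟨P, hP, hPn⟩ := hn
  have hPn' : ∀ i c m : Ordinal.{u}, nth (Lst en (Qm γ l m)) i c ↔
      P (fun n => if n = 0 then i.toZFSet else if n = 1 then c.toZFSet else m.toZFSet) := by
    intro i c m
    have h1 := hPn (fun n => if n = 0 then i else if n = 1 then c else m)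
    have h2 : ov (fun n => if n = 0 then i else if n = 1 then c else m) =
        fun n => if n = 0 then i.toZFSet else if n = 1 then c.toZFSet else m.toZFSet := by
      funext n
      show (if n = 0 then i else if n = 1 then c else m).toZFSet = _
      split_ifs <;> rfl
    rw [h2] at h1
    exact h1
  refine DZ.congr (P := fun v => (v 0).IsOrdinal ∧ (v 1).IsOrdinal ∧
    ∃ c, (c.IsOrdinal ∧ v 2 = en c.rank) ∧
      P (fun n => if n = 0 then v 1 else if n = 1 then c else v 0)) ?_ fun v => ?_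
  · refine (DZ.ord 0).and ((DZ.ord 1).and ?_)
    refine DZ.ex (R := fun c v => (c.IsOrdinal ∧ v 2 = en c.rank) ∧
      P (fun n => if n = 0 then v 1 else if n = 1 then c else v 0)) (DZ.and ?_ ?_)
    · exact (hen.dz).ren fun n => if n = 0 then 0 else 3
    · refine (hP.ren fun n => if n = 0 then 2 else if n = 1 then 0 else 1).congr fun v => ?_
      have : (fun n => if n = 0 then v 2 else if n = 1 then v 0 else v 1) =
          fun n => v (if n = 0 then 2 else if n = 1 then 0 else 1) := by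
        funext n
        split_ifs <;> rfl
      show P (fun n => if n = 0 then v 2 else if n = 1 then v 0 else v 1) ↔ _
      rw [this]
  · refine and_congr_right fun ha => and_congr_right fun hb => ?_
    obtain ⟨m, hm⟩ := ord_of ha
    obtain ⟨i, hi⟩ := ord_of hb
    rw [hm, hi, rank_toZFSet, rank_toZFSet]
    constructor
    · rintro ⟨c, hc, he⟩
      exact ⟨c.toZFSet, ⟨ZFSet.isOrdinal_toZFSet _, by rw [rank_toZFSet]; exact he.symm⟩,
        (hPn' i c m).1 hc⟩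
    · rintro ⟨c, ⟨hc, he⟩, hp⟩
      obtain ⟨c, rfl⟩ := ord_of hc
      rw [rank_toZFSet] at he
      exact ⟨c, (hPn' i c m).2 hp, he.symm⟩

/-- products of small sets -/
theorem sz_prod {K : Cardinal.{u}} (hK : ℵ₀ ≤ K) {A B : ZFSet.{u}} (hA : ∃ ν < K, NF.Sz ν A)
    (hB : ∃ ν < K, NF.Sz ν B) : ∃ ν < K, NF.Sz ν (ZFSet.prod A B) := by
  obtain ⟨a, ha, hA⟩ := hA
  obtain ⟨b, hb, hB⟩ := hB
  refine ⟨a * b, Cardinal.mul_lt_of_lt hK ha hb, ?_⟩
  rw [Pool.Agent.H45.NF.sz_iff] at hA hB ⊢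
  have h1 : #{s : ZFSet.{u} // s ∈ ZFSet.prod A B} ≤
      #({x : ZFSet.{u} // x ∈ A} × {x : ZFSet.{u} // x ∈ B}) := by
    have h2 : ∀ s : {s : ZFSet.{u} // s ∈ ZFSet.prod A B},
        ∃ p : {x : ZFSet.{u} // x ∈ A} × {x : ZFSet.{u} // x ∈ B},
          s.1 = ZFSet.pair p.1.1 p.2.1 := by
      rintro ⟨s, hs⟩
      obtain ⟨x, hx, y, hy, h⟩ := ZFSet.mem_prod.1 hs
      exact ⟨(⟨x, hx⟩, ⟨y, hy⟩), h⟩
    choose p hp using h2
    refine Cardinal.mk_le_of_injective (f := p) fun s t hst => Subtype.ext ?_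
    rw [hp s, hp t, hst]
  refine h1.trans ?_
  rw [Cardinal.mk_prod, Cardinal.lift_mul, Cardinal.lift_id, Cardinal.lift_id]
  exact mul_le_mul' hA hB

theorem pf_COD (h0 : T_PVA.{u}) (h1 : T_WZF.{u}) (h2 : T_WSZ.{u}) : T_COD.{u} := by
  intro en hen K hK hK0 γ hγ hF l hl
  obtain ⟨-, p2, p3, -, -⟩ := h0
  refine ⟨JJ en γ l, dz_JJ hen h1 γ l, ?_, ?_, ?_, ?_, ?_⟩
  · -- existence
    intro m _ Y hY hYQ
    obtain ⟨c, hc⟩ := (hen.od Y).1 hY
    have hne : {c | en c = Y}.Nonempty := ⟨c, hc⟩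
    have hmem : en (sInf {c | en c = Y}) = Y := csInf_mem hne
    obtain ⟨v1, -, -, -⟩ := HD.All.vh (Lst en (Qm γ l m))
    obtain ⟨a, -, ha⟩ := v1 (sInf {c | en c = Y}) ⟨by rw [hmem]; exact hYQ, fun c' hc' he => by
      rw [hmem] at he
      exact absurd hc' (not_lt.2 (csInf_le' he))⟩
    exact ⟨a, _, ha, hmem⟩
  · -- uniqueness
    rintro m i Y Y' ⟨c, hc, rfl⟩ ⟨c', hc', rfl⟩
    obtain ⟨-, v2, -, -⟩ := HD.All.vh (Lst en (Qm γ l m))
    rcases lt_trichotomy c c' with h | h | h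
    · exact absurd ((v2 i i c c' hc hc').2 h) (lt_irrefl _)
    · rw [h]
    · exact absurd ((v2 i i c' c hc' hc).2 h) (lt_irrefl _)
  · -- injectivity
    rintro m i i' Y ⟨c, hc, hcY⟩ ⟨c', hc', hcY'⟩
    obtain ⟨-, v2, -, -⟩ := HD.All.vh (Lst en (Qm γ l m))
    have hcc : c = c' := by
      rcases lt_trichotomy c c' with h | h | h
      · exact absurd (hcY.trans hcY'.symm) (hc'.1.2 c h)
      · exact h
      · exact absurd (hcY'.trans hcY.symm) (hc.1.2 c' h)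
    subst hcc
    rcases lt_trichotomy i i' with h | h | h
    · exact absurd ((v2 i i' c c hc hc').1 h) (lt_irrefl _)
    · exact h
    · exact absurd ((v2 i' i c c hc' hc).1 h) (lt_irrefl _)
  · -- the sets
    rintro m i Y ⟨c, hc, rfl⟩
    exact ⟨(hen.od _).2 ⟨c, rfl⟩, hc.1.1⟩
  · -- bounds
    intro m hm
    have hPV : ∀ s ∈ Qm γ l m, PV γ s := by
      intro s hs
      obtain ⟨a, ha, b, hb, rfl⟩ := ZFSet.mem_prod.1 hs
      have ha' : a ∈ V_ γ := ZFSet.vonNeumann_subset_of_le hl.le ha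
      have h3 : PV γ a := (p2 γ hγ.lim a ha').self
      have h4 : NV γ b := (ZFSet.mem_sep.1 hb).2
      refine p3 γ hγ.lim a b _ h3 h4.self ?_
      exact Pool.Agent.H45.NF.ODp.of_dz (Q := fun v => v 0 = v 1) (DZ.eq 0 1) fun y => Iff.rfl
    have hSz : ∃ ν < K, NF.Sz ν (Qm γ l m) :=
      sz_prod hK0.le (hγ.few l hl) (h2 en hen K hK hK0 γ hγ hF m hm)
    have hfew := hF (Qm γ l m) (od_Qm h1 γ l m) hPV hSz
    obtain ⟨-, v2, v3, -⟩ := HD.All.vh (Lst en (Qm γ l m))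
    obtain ⟨b, hb, hbn⟩ : ∃ b < K.ord, ¬ ∃ z, nth (Lst en (Qm γ l m)) b z := by
      by_contra hcon
      push Not at hcon
      choose z hz using hcon
      have hlt := few_iff.1 hfew
      have hle : Cardinal.lift.{u + 1} K ≤ #(Lst en (Qm γ l m)) := by
        have e1 : #(Iio K.ord) = Cardinal.lift.{u + 1} K := by
          rw [Cardinal.mk_Iio_ordinal, Cardinal.card_ord]
        rw [← e1]
        refine Cardinal.mk_le_of_injective
          (f := fun a : Iio K.ord => (⟨z a.1 a.2, (hz a.1 a.2).1⟩ : Lst en (Qm γ l m))) ?_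
        intro a a' haa
        have h5 : z a.1 a.2 = z a'.1 a'.2 := congrArg Subtype.val haa
        have h6 := hz a.1 a.2
        have h7 := hz a'.1 a'.2
        rw [← h5] at h7
        refine Subtype.ext ?_
        rcases lt_trichotomy a.1 a'.1 with h | h | h
        · exact absurd ((v2 _ _ _ _ h6 h7).1 h) (lt_irrefl _)
        · exact h
        · exact absurd ((v2 _ _ _ _ h7 h6).1 h) (lt_irrefl _)
      exact absurd hlt (not_lt.2 hle)
    refine ⟨b, hb, ?_⟩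
    rintro i Y ⟨c, hc, -⟩
    by_contra hib
    rcases (not_lt.1 hib).eq_or_lt with h | h
    · subst h
      exact hbn ⟨c, hc⟩
    · obtain ⟨y, -, hy⟩ := v3 i c hc b h
      exact hbn ⟨y, hy⟩

end Pool.Agent.H2.HV
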