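import Pool.Agent.H97.HV.Targets3
import Pool.Agent.H45.NF.CL

/-!
# EQC. The classes of small sets in the first case (MP_e37c09_lc)
-/

open Ordinal Cardinal Order Set
open scoped ZFSet

universe u

namespace Pool.Agent.H2.HV

open _root_.HD HD.PRK HD.HV

/-- the set of the singletons of the elements of `A` which are subsets of `κ` -/
noncomputable def sgl (κ : Ordinal.{u}) (A : ZFSet.{u}) : ZFSet.{u} :=
  ZFSet.sep (fun x => ∃ b ∈ A, x = {b, b}) (ZFSet.powerset κ.toZFSet)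

theorem od_sgl (κ : Ordinal.{u}) {A : ZFSet.{u}} (hA : OD A) : OD (sgl κ A) := by
  refine Pool.Agent.H45.NF.od_sep (Pool.Agent.H45.NF.od_powerset (OD.ordinal κ)) ?_
  exact DZ.od (R := fun a v => ∃ b ∈ a, v 0 = {b, b}) hA (DZ.exMem 0 (loc_upair 2 0 0).dz)

theorem mem_sgl {κ b : Ordinal.{u}} {X : Set Ordinal.{u}} :
    ({b.toZFSet} : ZFSet.{u}) ∈ sgl κ (os κ X) ↔ b < κ ∧ b ∈ X := by
  unfold sgl
  rw [ZFSet.mem_sep, ZFSet.mem_powerset]
  constructor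
  · rintro ⟨-, c, hc, he⟩
    obtain ⟨a, ha, haX, rfl⟩ := mem_os.1 hc
    have h1 : b.toZFSet ∈ ({a.toZFSet, a.toZFSet} : ZFSet.{u}) := by
      rw [← he]
      exact ZFSet.mem_singleton.2 rfl
    have h2 : b.toZFSet = a.toZFSet := by
      rcases ZFSet.mem_pair.1 h1 with h | h <;> exact h
    rw [toZFSet_injective h2]
    exact ⟨ha, haX⟩
  · rintro ⟨hb, hX⟩
    refine ⟨fun z hz => ?_, b.toZFSet, mem_os.2 ⟨b, hb, hX, rfl⟩, ?_⟩
    · rw [ZFSet.mem_singleton.1 hz]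
      exact toZFSet_mem_toZFSet_iff.2 hb
    · ext z
      rw [ZFSet.mem_singleton, ZFSet.mem_pair, or_self]

theorem pf_EQC (h0 : T_PVA.{u}) (h1 : T_ATM.{u}) (h2 : T_NOM.{u}) : T_EQC.{u} := by
  intro δ hδ hA K hK hδK γ hγ hC
  obtain ⟨η, -, θ, j, hj⟩ := HD.All.xa δ hδ 0
  obtain ⟨D, rfl, hD, -, hD0⟩ := HD.All.xb δ η θ j hj
  have hωD : ω < D.ord := by
    rw [← Cardinal.ord_aleph0]
    exact Cardinal.ord_lt_ord.2 hD0
  have hDK : D < K := Cardinal.ord_lt_ord.1 hδK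
  have hK0 : ℵ₀ < K := hD0.trans hDK
  have hcof : ℵ₀ < K.ord.cof := by
    rw [hK.cof_ord]
    exact hK0
  refine h2 D.ord hδ hA K hK hδK γ hγ.lim (h1 D.ord hδ K hK hδK ?_ γ hγ)
  intro s hs hfun hpos
  obtain ⟨τ, hτ, g, hg⟩ := hC ω hωD le_rfl
  have hX : ∀ i : Ordinal.{u}, DS {b | s b i} := fun i =>
    DO.sect1 (R := fun a b => s b a) (hs.s2 1 0) i
  have hQ : ∀ i : Ordinal.{u}, PV γ (sgl K.ord (os K.ord {b | s b i})) := fun i =>
    h0.1 γ _ hγ.lim.bot_lt (od_sgl _ (od_os (hX i) _))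
  choose c hc C hCl hCg using fun i => hg _ (hQ i)
  have hinj : ∀ i < D.ord, ∀ k < D.ord, c i = c k → i = k := by
    intro i hi k _ hik
    obtain ⟨b, hb, ⟨hb1, hb2⟩, hbs, hbc⟩ :=
      hpos i hi _ (HD.All.ci K.ord (C i) (C k) hcof (hCl i) (hCl k))
    have hb3 : s b i := hbs
    have hsm : ∀ E : Set Ordinal.{u}, b ∈ E → SmS ω K.ord E {b.toZFSet} := by
      intro E hE
      refine ⟨⟨_, ZFSet.mem_singleton.2 rfl⟩, fun z hz => ⟨b, hb, hE, ?_,
        ZFSet.mem_singleton.1 hz⟩, fun _ => b, fun a ha => ⟨0, Ordinal.omega0_pos, ?_⟩⟩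
      · have h3 : b.cof.ord = ω := hbc
        exact h3.le
      · exact (toZFSet_injective (ZFSet.mem_singleton.1 ha)).symm
    have h3 := (hCg i _ (hsm _ hb1)).1 (mem_sgl.2 ⟨hb, hb3⟩)
    rw [hik] at h3
    have h4 := (hCg k _ (hsm _ hb2)).2 h3
    exact hfun b i k hb3 (mem_sgl.1 h4).2
  have hle : #(Iio D.ord) ≤ #(Iio τ) := by
    refine Cardinal.mk_le_of_injective (f := fun i : Iio D.ord => (⟨c i.1, hc i.1⟩ : Iio τ)) ?_
    intro i k hik
    have h5 : c i.1 = c k.1 := congrArg Subtype.val hik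
    exact Subtype.ext (hinj i.1 i.2 k.1 k.2 h5)
  rw [Cardinal.mk_Iio_ordinal, Cardinal.mk_Iio_ordinal, Cardinal.card_ord,
    Cardinal.lift_le] at hle
  exact absurd (Cardinal.lt_ord.1 hτ) (not_lt.2 hle)

end Pool.Agent.H2.HV
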